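import Pool.Agent.MWS.Defs

/-!
# Block MWS, part A: the two letter principle (rows)

Every row: file `Pool/Agent/HelperNN_MWS/XXX.lean`, import `Pool.Agent.MWS.StmtsA`, namespace
`Pool.Agent.MWS.HNN`, theorem `xxx (hypotheses = rows in uses, in this order) : XxxStmt`.
`RR θ u v` is the congruence on lists (`RR.refl, symm, append, sub, filter` in
`Helper2_MV/Keep.lean`; transitivity is `θ.trans`); `asm k B` is the word with the blocks
`B 0, …, B k` (tools in `MVO/Basic.lean`, `MVO/Split.lean`).  `β ≤ θ` is applied as `h _ _ hr`.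
Rows of other squads used here: `MVO.ComStmt`, `MVO.RenStmt`, `MVO.OneStmt`,
`MWL.TrnStmt`, `MWL.AbsStmt`, `MWL.KeyStmt`, `MWL.LawStmt`, `MWL.NdfStmt`.
-/

namespace Pool.Agent.MWS

open Pool.Agent.Helper14_MV Pool.Agent.Helper2_MV Pool.Agent.MVO Pool.Agent.MWL

/-- **GLD** (uses nothing).  Both forms of the distributive law.
PROOF.  Pass from words to lists (`FreeMonoid.ofList` / `toList`, `RR θ l l'` is `θ.r` of the two
words by definition).  Given `ρ σ τ`, put `κ := sup ρ τ`; `(u, v) ∈ sup ρ σ` and `∈ κ`.  `MJ` for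
`ρ, σ, κ`: `(u, v) ∈ sup (inf ρ κ) (inf σ κ)`; it is enough (`FIC.sup_le`) that `inf ρ κ` and `inf σ κ`
are `≤ sup ρ (inf σ τ)`.  `inf ρ κ ≤ ρ`.  If `(a, b) ∈ inf σ κ`, then `MJ` for `ρ, τ, σ` gives
`(a, b) ∈ sup (inf ρ σ) (inf τ σ)`, and `inf ρ σ ≤ ρ`, `inf τ σ ≤ inf σ τ`. -/
def GldStmt : Prop := ∀ β : FIC, MJ β → DistF β

/-- **CAP** (uses nothing).  Congruences without `xy ≈ yx` preserve the number of occurrences up to
`2`.
PROOF.  Suppose `min p 2 ≠ min q 2` for `p = u.count c`, `q = v.count c`; by symmetry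
`min p 2 < min q 2`, so `p ≤ 1` and `p < q`.  `RR.filter` with `d = c` and `RR.sub` with `c ↦ [0]`:
`RR θ (replicate p 0) (replicate q 0)`.  By `ap` (append, induction) `RR θ (0^m) (0^2)` for all `m ≥ 2`.
(A) `RR θ [0] [0, 0]`: if `p = 0` append `[0]`: `[0] ≈ 0^(q+1) ≈ 0^2`; if `p = 1` then `q ≥ 2` and
`[0] ≈ 0^q ≈ 0^2`.  (B) substitute `0 ↦ [0, 1]` and `0 ↦ [1, 0]` in (A): `[0,1] ≈ [0,1,0,1]`,
`[1,0] ≈ [1,0,1,0]`; with `ic`: `[0,1] ≈ [1,0]`, a contradiction. -/
def CapStmt : Prop :=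
  ∀ β θ : FIC, ApI β → β ≤ θ → NC2 θ → ∀ u v : List ℕ, RR θ u v →
    ∀ c, min (u.count c) 2 = min (v.count c) 2

/-- **CMM** (uses MVO.COM).  A congruence with `xy ≈ yx` contains all pairs with the same numbers of
occurrences up to `2`.
PROOF.  Let `F` be a list without repetitions which contains all letters of `u` and `v`
(`(u ++ v).dedup`).  For a word `w` with all letters in `F`: `w ≈ F.flatMap (fun c =>
replicate (w.count c) c)` by COM (both words have the same count of every letter), and this is `≈` to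
`nf w := F.flatMap (fun c => replicate (min (w.count c) 2) c)` (induction on the list: each factor
`c^m` with `m ≥ 2` is `≈ c^2` by `ap`, substitution `0 ↦ [c]`; `RR.append`).  By hypothesis
`nf u = nf v`. -/
def CmmStmt : Prop :=
  ∀ β θ : FIC, ApI β → β ≤ θ → ¬ NC2 θ → ∀ u v : List ℕ,
    (∀ c, min (u.count c) 2 = min (v.count c) 2) → RR θ u v

/-- **CMP** (uses CMM).  Two congruences with `xy ≈ yx` are comparable.
PROOF.  For `θ` with `xy ≈ yx` let `E θ := RR θ [0] [0,0]`, `Z θ := RR θ [] [0]`.  (1) If `RR θ u v` and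
`min (u.count c) 2 ≠ min (v.count c) 2`, then `E θ`; if moreover `c` occurs in only one of `u`, `v`,
then `Z θ`.  As in CAP: filter to `c` and rename: `0^p ≈ 0^q` with `p ≤ 1`, `p < q` (or exchanged), so
(A) of CAP gives `E θ`; if `p = 0`: `[] ≈ 0^q ≈ [0]` by `E θ`.  (2) If `E θ` and `u`, `v` have the same
letters, then `RR θ u v`: `u ≈ u.flatMap (fun c => [c, c])` (induction on `u`, substitution
`0 ↦ [c]` in `E θ`), the same for `v`, and the two doubled words have counts `≥ 2` for the letters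
which occur and `0` else: CMM.  (3) If `Z θ` then `RR θ u []` for all `u` (induction).  Now: if
`Z ρ`: `σ ≤ ρ`.  If `Z σ`: `ρ ≤ σ`.  Otherwise, if `E ρ`: for `RR σ u v` the letters are the same by (1)
for `σ`, so `RR ρ u v` by (2): `σ ≤ ρ`.  If `E σ`: `ρ ≤ σ`.  Otherwise every pair of `σ` has the same
counts up to `2` by (1), so it is in `ρ` by CMM: `σ ≤ ρ`. -/
def CmpStmt : Prop :=
  ∀ β ρ σ : FIC, ApI β → β ≤ ρ → β ≤ σ → ¬ NC2 ρ → ¬ NC2 σ → ρ ≤ σ ∨ σ ≤ ρ

/-- **NSP** (uses CAP).  PROOF.  Let `RR (sup ρ σ) [0,1] [1,0]`: a chain of steps in `ρ` or `σ` (definition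
of `FIC.sup`) from the word `[0,1]`.  Claim: every word of the chain is `[0,1]` (induction).  If
`RR ρ [0,1] w`, then by CAP `w.count 0 = w.count 1 = 1` and all other counts are `0`, so `w = [0,1]` or
`w = [1,0]` (`w` is a permutation of `[0,1]`, `List.perm_iff_count`), and the latter contradicts
`NC2 ρ`; the same for `σ`.  So `[1,0] = [0,1]`, a contradiction. -/
def NspStmt : Prop :=
  ∀ β ρ σ : FIC, ApI β → β ≤ ρ → β ≤ σ → NC2 ρ → NC2 σ → NC2 (FIC.sup ρ σ)

/-- **DGN** (uses CAP, CMM, CMP).  The degenerate cases of the distributive law.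
PROOF.  Note: `inf ρ τ`, `inf σ τ` are `≤ psi ρ σ τ`.
(a) `NC2 τ`.  If `NC2 ρ` and `NC2 σ`: `MJN`.  If `¬ NC2 ρ`: by CAP for `τ` the pair `(u, v)` has the same
counts up to `2`, so it is in `ρ` by CMM, hence in `inf ρ τ`.  If `¬ NC2 σ`: the same.
(b) `¬ NC2 τ`.  If `NC2 ρ` then `ρ ≤ τ` (CAP for `ρ`, CMM for `τ`), so `ρ ≤ inf ρ τ ≤ psi`; the same for
`σ`.  So if `NC2 ρ` and `NC2 σ`: `sup ρ σ ≤ psi` (`FIC.sup_le`).  If `¬ NC2 ρ` and `NC2 σ`: `σ ≤ ρ` (CAP for
`σ`, CMM for `ρ`), so `sup ρ σ ≤ ρ` and `(u, v) ∈ inf ρ τ`; the same with `ρ`, `σ` exchanged.  If neither: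
CMP: `ρ ≤ σ` or `σ ≤ ρ`, so `(u, v) ∈ σ` or `∈ ρ`, and `(u, v) ∈ τ`. -/
def DgnStmt : Prop := ∀ β : FIC, ApI β → MJN β → MJ β

/-- **NRM** (uses CAP).  A word which is related to a block word is a block word.
PROOF.  Let `S c := 2 ≤ c ∧ c ≤ k + 1`.  By CAP `v` contains every letter `c` with `S c` exactly once (it
occurs exactly once in `asm k B`: `count_sep`).  So `v.filter S` is a permutation of `seps k`
(`List.perm_iff_count`, `filter_sep`), and `RR θ (seps k) (v.filter S)` (`RR.filter`).  If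
`v.filter S ≠ seps k`, two letters `s < t` of `seps k` are in the other order in `v.filter S` (a
permutation of an increasing list which is not increasing has a descent); filter to `{s, t}`:
`RR θ [s, t] [t, s]`, rename: `RR θ [0, 1] [1, 0]`, a contradiction.  (The same argument is proved in
the row SEQ of squad MVO, see `MVO/StmtsG.lean`.)  So `v.filter S = seps k` and `dec` gives `B'`.
If `c ∈ B' j`, `j ≤ k`, then `NS k c` and `c ∈ v`, so `c ∈ asm k B` by CAP, so `c` is in a block of `B`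
(`mem_asm`), its count in `asm k B` is `≥ 2` (`count_asm`, `Mlt`), hence `2 ≤ v.count c` by CAP, and
`count_asm` for `B'`. -/
def NrmStmt : Prop :=
  ∀ β θ : FIC, ApI β → β ≤ θ → NC2 θ → ∀ (k : ℕ) (B : ℕ → List ℕ) (v : List ℕ), OkB k B →
    RR θ (asm k B) v → ∃ B' : ℕ → List ℕ, v = asm k B' ∧ OkB k B' ∧ Sub k B B'

/-- **BLK** (uses MVO.REN, NRM).  Reduction to block words.
PROOF.  `u`, `v` given, related in `sup ρ σ` and in `τ`.  REN: `u.map π = asm k B` with `OkB k B`.  For every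
congruence `θ`: `RR θ u v → RR θ (u.map π) (v.map π)` (`RR.sub` with `c ↦ [π c]`).  NRM for `τ`:
`v.map π = asm k B'`, `OkB k B'`.  `MJB` gives `RR (psi ρ σ τ) (u.map π) (v.map π)`; apply `π⁻¹` (`RR.sub`,
`List.map_map`). -/
def BlkStmt : Prop := ∀ β : FIC, ApI β → MJB β → MJN β

/-- **TLP** (uses nothing).  The two letter principle.
PROOF.  `ψ := psi ρ σ τ`; `ψ ≤ τ` (`FIC.sup_le`), so `NC2 ψ`; `β ≤ ψ`.  Use `D2` for `θ = ψ`.  Let `x ≠ y`,
`NS k x`, `NS k y`.  For every congruence `θ`: `RR θ (asm k B) (asm k B')` gives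
`RR θ (asm k (r2 x y B)) (asm k (r2 x y B'))`: `RR.filter` with
`p c := decide (c = x ∨ c = y) || decide (2 ≤ c ∧ c ≤ k + 1)`, `asm_filter`, `asm_congr` (for letters `c`
with `NS k c` the filters agree).  Let `h c := if c = x then [0] else [1]` and
`C j := (r2 x y B j).flatMap h`, `C'` the same for `B'`: `rr_sub`.  `C` has the letters `0`, `1` only;
`(C j).count 0 = (B j).count x`, `(C j).count 1 = (B j).count y`; so `OkB k C`, `Two01 k C` and the
same for `C'` (a letter of the restricted blocks is a letter of `B`, hence multiple).  `MJ2` gives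
`RR ψ (asm k C) (asm k C')`; rename back with `h' c := if c = 0 then [x] else [y]` (`rr_sub`;
`(C j).flatMap h' = r2 x y B j`). -/
def TlpStmt : Prop := ∀ β : FIC, D2 β → MJ2 β → MJB β

/-- **NDN** (uses MWL.NDF, CAP).  PROOF.  NDF: `NC2 θ` is the first hypothesis; if `j ≠ 1` and
`RR θ [0] (replicate j 0)`, then CAP gives `min 1 2 = min j 2`, so `j = 1`, a contradiction. -/
def NdnStmt : Prop := ∀ β θ : FIC, ApI β → β ≤ θ → NC2 θ → ND (FC.ofFIC θ)

/-- **LRN** (uses nothing).  PROOF.  `per`: the words `mw 0 (sg 0 2)`, `mw 0 (sg 0 3)` are `[0,0]`, `[0,0,0]`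
(`decide` or `rfl`): `ap`.  `rr`: `mw 1 (v2 2 1) = [0,0,2,0]`, `mw 1 (v2 2 2) = [0,0,2,0,0]`. -/
def LrnStmt : Prop := ∀ β θ : FIC, BaseR β → β ≤ θ → LR 1 (FC.ofFIC θ)

/-- **CHK** (uses nothing).  A one letter identity applied to chunks of a word.
PROOF.  `rr_ins` for the blocks `replicate (a j) 0` and `replicate (a' j) 0` (`blkOk_mw`) with `P`, `Q` and
`h 0 = [c]`. -/
def ChkStmt : Prop :=
  ∀ (θ : FIC) (k : ℕ) (a a' : ℕ → ℕ) (c : ℕ) (P Q : ℕ → List ℕ), L1 θ k a a' →
    RR θ (asm k (fun j => P j ++ List.replicate (a j) c ++ Q j))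
      (asm k (fun j => P j ++ List.replicate (a' j) c ++ Q j))

/-- **BLR** (uses nothing).  Replace the blocks one after the other.
PROOF.  Induction on `m ≤ k + 1`: `RR θ (asm k B) (asm k (fun j => if j < m then B' j else B j))`;
`m = 0`: `B`; `m = k + 1`: `B'` on `0..k` (`asm_congr`). -/
def BlrStmt : Prop :=
  ∀ (θ : FIC) (k : ℕ) (B B' : ℕ → List ℕ),
    (∀ m ≤ k, RR θ (asm k (fun j => if j < m then B' j else B j))
      (asm k (fun j => if j < m + 1 then B' j else B j))) → RR θ (asm k B) (asm k B')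

/-- **DBL** (uses nothing).  An occurrence of a heavy letter may be repeated.
PROOF.  `n = 1` trivial; induction on `n`, so let `B i = P ++ x^n ++ Q` with `n ≥ 1` (with the same
hypotheses) and insert one more `x`.  `asm k B = pre ++ B i ++ suf` (`asm_split`, `asm_update`).  `x`
occurs in `P` or in `x^(n-1) ++ Q`.  If `x ∈ x^(n-1) ++ Q = Q1 ++ x :: Q2`: `Itr` with the first `x` of
`x^n`, `w = []`, `w' = Q1`.  If `x ∈ P = P1 ++ x :: P2`: `Itr` with `w = P2`, `w' = []` and the first `x` of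
`x^n`.  The letters of `w`, `w'` are letters of the block `i`, so they are multiple in the word
(`Mlt`, `count_asm`; repeating `x` does not decrease counts). -/
def DblStmt : Prop :=
  ∀ β : FIC, Itr β → ∀ (k : ℕ) (B : ℕ → List ℕ), OkB k B → ∀ i ≤ k, ∀ (x : ℕ) (P Q : List ℕ),
    B i = P ++ x :: Q → 2 ≤ (B i).count x → ∀ n, 1 ≤ n →
      RR β (asm k B) (asm k (Function.update B i (P ++ List.replicate n x ++ Q)))

/-- **DBA** (uses BLR, DBL).  The same in all blocks at once.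
PROOF.  BLR: the families `if j < m then B1 j else B j` have the same letters as `B` and at least the
counts of `B` (every letter of `B1 j` is a letter of `B j`, `n ≥ 1`), so they satisfy `OkB`; the step at
`m` is DBL (or equality).  (Two functions which are equal on `0..k`: `asm_congr`.) -/
def DbaStmt : Prop :=
  ∀ β : FIC, Itr β → ∀ (k : ℕ) (B B1 : ℕ → List ℕ), OkB k B →
    (∀ j ≤ k, B1 j = B j ∨ ∃ (x : ℕ) (P Q : List ℕ) (n : ℕ), 1 ≤ n ∧ 2 ≤ (B j).count x ∧
      B j = P ++ x :: Q ∧ B1 j = P ++ List.replicate n x ++ Q) → RR β (asm k B) (asm k B1)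

/-- **SAT** (uses MWL.TRN, MWL.ABS, LRN, CHK, DBL, DBA).  A letter which absorbs in block `i` can be
inserted in block `i`: at any place if it does not occur in block `i`, and behind any occurrence if
it occurs.
PROOF.  Let `a = ty B x`.  If `2 ≤ a i` (then `P = P' ++ [x]`): DBL with `n = 3` at this occurrence gives the
result in `β`.  Let `a i ≤ 1`.  For `j ≤ k`, `j ≠ i`, with `1 ≤ a j` write `B j = P j ++ x :: Q j` (first
occurrence); if `a j = 0` let `P j = B j`, `Q j = []`.  For `i`: if `a i = 0` let `P i = P`, `Q i = Q`; if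
`a i = 1`: `P = P' ++ [x]`, let `P i = P'`, `Q i = Q`.  Let `c j = min (a j) 2`.  Let
`B1 j = P j ++ x^(c j) ++ Q j`; `B1` is `B` with one `x` doubled in every block with `a j ≥ 2`: DBA:
`RR β (asm k B) (asm k B1)`.  `Nq 1 k a c` (if `a j ≤ 1` the entries are equal, otherwise both are `≥ 2`,
so both are heavy, and congruence mod `1` is trivial), so by ABS (second part, `LRN`)
`L1 θ k a c`, and by TRN (1) `Ab 1 (FC.ofFIC θ) k c i`, i.e. `L1 θ k c (c + 2 e_i)`.  CHK:
`asm k B1 ≈ asm k (P j ++ x^(c j + 2 [j = i]) ++ Q j)`.  In block `i` this is `P ++ x :: x :: Q` (also if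
`a i = 1`: `P' ++ x³ ++ Q`).  Remove the doubling in the other blocks: DBA for the family
`Function.update B i (P ++ x :: x :: Q)` (it satisfies `OkB`), backwards. -/
def SatStmt : Prop :=
  ∀ β θ : FIC, BaseR β → Itr β → β ≤ θ → ∀ (k : ℕ) (B : ℕ → List ℕ), OkB k B → ∀ i ≤ k,
    ∀ x : ℕ, NS k x → 2 ≤ deg k (ty B x) → Ab 1 (FC.ofFIC θ) k (ty B x) i →
      ∀ P Q : List ℕ, B i = P ++ Q → (x ∉ B i ∨ ∃ P', P = P' ++ [x]) →
        RR θ (asm k B) (asm k (Function.update B i (P ++ x :: x :: Q)))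

/-- **STA** (uses MVO.ONE, MWL.TRN, SAT).  Saturation.
PROOF.  For a list `L` of pairs `(x, i)` with `i ≤ k`, `NS k x` and `x` a letter of the blocks of `B`, prove by
induction that there is `B1` with `OkB k B1`, `Sub k B B1`, `RR θ (asm k B) (asm k B1)`,
`(B j).count c ≤ (B1 j).count c` for all `j ≤ k` and `c`, and `2 ≤ (B1 i).count x` for all `(x, i) ∈ L` with
`Ab 1 (FC.ofFIC θ) k (ty B x) i`.  Step for `(x, i)`: let `B1` be the family for the rest of the list.  If
`2 ≤ (B1 i).count x` or not `Ab .. (ty B x) i`: nothing to do.  Else ONE (first part) gives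
`L1 θ k (ty B x) (ty B1 x)`, so `Ab .. (ty B1 x) i` by TRN (1), and `2 ≤ deg k (ty B1 x)` as `x` is a multiple
letter of `B` (`Mlt`, the counts increase).  If `x ∉ B1 i`: SAT with `P = []`; if `B1 i = P' ++ x :: Q`: SAT with
`P = P' ++ [x]`.  The new family satisfies everything (only the count of `x` in block `i` increases, by
`2`).  Apply this to the list of all pairs (letters of the concatenation of the blocks `0..k`, times
`0..k`). -/
def StaStmt : Prop :=
  ∀ β θ : FIC, BaseR β → Itr β → β ≤ θ → ∀ (k : ℕ) (B : ℕ → List ℕ), OkB k B →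
    ∃ B1 : ℕ → List ℕ, OkB k B1 ∧ Sub k B B1 ∧ RR θ (asm k B) (asm k B1) ∧
      (∀ j ≤ k, ∀ c, (B j).count c ≤ (B1 j).count c) ∧
      ∀ x, (∃ j ≤ k, x ∈ B j) → ∀ i ≤ k, Ab 1 (FC.ofFIC θ) k (ty B x) i → 2 ≤ (B1 i).count x

/-- **SHS** (uses MVO.ONE, MWL.TRN, MWL.KEY, NDN, LRN, STA).  Two words with related types have
saturations of the same shape.
PROOF.  STA for `B` and `B'`: `C`, `C'`.  Let `NS k x`, `a = ty B x`, `a' = ty B' x`, `c = ty C x`, `c' = ty C' x`.
`L1 θ k a a'` by hypothesis, `L1 θ k a c`, `L1 θ k a' c'` by ONE.  (0) If `x` is not a letter of `B`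
(`a = 0` on `0..k`): `ND` (NDN) gives `a' = 0` on `0..k`, and by `Sub` `c = c' = 0` on `0..k`; the same if `x` is
not a letter of `B'` (symmetry).  (1) Otherwise let `i ≤ k`.  `a, a', c, c'` absorb in the same blocks (TRN
(1)).  If they absorb at `i`: `2 ≤ c i` and `2 ≤ c' i` by STA.  If not: KEY (`n = 1`) for `c`, `c'` gives
`c i = c' i`. -/
def ShsStmt : Prop :=
  ∀ β θ : FIC, BaseR β → Itr β → β ≤ θ → NC2 θ → ∀ (k : ℕ) (B B' : ℕ → List ℕ), OkB k B →
    OkB k B' → (∀ x, NS k x → L1 θ k (ty B x) (ty B' x)) →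
      ∃ C C' : ℕ → List ℕ, OkB k C ∧ OkB k C' ∧ Sub k B C ∧ Sub k B' C' ∧ Shp k C C' ∧
        RR θ (asm k B) (asm k C) ∧ RR θ (asm k B') (asm k C')

/-- **D2F** (uses MVO.ONE, SHS).  PROOF.  Let the two letter restrictions of `B`, `B'` be `θ`-related.
For `NS k x` take `y := k + 2 + x` (`y ≠ x`, `NS k y`); ONE for `r2 x y B`, `r2 x y B'` and the letter `x` gives
`L1 θ k (ty B x) (ty B' x)` (`(r2 x y B j).count x = (B j).count x`).  SHS: `C`, `C'`.  For `x ≠ y` with
`NS k x`, `NS k y`: `asm k (r2 x y C) ≈ asm k (r2 x y B) ≈ asm k (r2 x y B') ≈ asm k (r2 x y C')` in `θ` (the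
first and third by `RR.filter`, `asm_filter` as in TLP).  `SWP`: `RR θ (asm k C) (asm k C')`; so
`RR θ (asm k B) (asm k B')`. -/
def D2fStmt : Prop := ∀ β : FIC, BaseR β → Itr β → SWP β → D2 β

/-- **CHN** (uses NRM).  Chains of block words.
PROOF.  Pass to lists.  Induction on the chain (`FIC.sup` is the reflexive transitive closure of
`ρ.r a b ∨ σ.r a b`): if `w = asm k B1` with `OkB k B1`, `Sub k B B1` and `RR ρ w w'` (or `RR σ w w'`), then NRM
gives `w' = asm k B2`, `OkB k B2`, `Sub k B1 B2`. -/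
def ChnStmt : Prop :=
  ∀ β ρ σ : FIC, ApI β → β ≤ ρ → β ≤ σ → NC2 ρ → NC2 σ → ∀ (k : ℕ) (B : ℕ → List ℕ) (v : List ℕ),
    OkB k B → RR (FIC.sup ρ σ) (asm k B) v →
      ∃ B' : ℕ → List ℕ, v = asm k B' ∧ OkB k B' ∧ Sub k B B' ∧
        Relation.ReflTransGen (StM ρ σ k) B B'

/-- **MJO** (uses MVO.ONE, MWL.LAW, CHN, NDN, LRN, SHS).  Reduction to the same shapes.
PROOF.  `ψ := psi ρ σ τ`; `β ≤ ψ`, `ψ ≤ τ`, `ψ ≤ sup ρ σ` (`FIC.sup_le`), `NC2 ψ` because `ψ ≤ τ`.  Claim: for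
`NS k x`: `L1 ψ k (ty B x) (ty B' x)`.  LAW (`n = 1`) with `R, S, T, U` = `FC.ofFIC` of `ρ, σ, τ, ψ`: `LR 1` by LRN,
`ND` by NDN; the inclusions: `L1 ρ` and `L1 τ` give `L1 (inf ρ τ)`, hence `L1 ψ` (`FIC.le_sup_left`), the same
for `σ`; `L1 τ k (ty B x) (ty B' x)` by ONE; the chain `Jn`: CHN gives a chain of `StM ρ σ k` from `B` to some
`B''` with `asm k B' = asm k B''`, so `B' j = B'' j` for `j ≤ k` (`uniq`); ONE for every step (`ρ` or `σ`) gives a
step of `Jn`; at the end `FC.ext` replaces `B''` by `B'` (append one more step `R.R k (ty B'' x) (ty B' x)`).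
SHS for `θ = ψ`: `C`, `C'`, with `Two01` by `Sub`.  `asm k C ≈ asm k B ≈ asm k B' ≈ asm k C'` in `sup ρ σ` and in
`τ`.  `MJS`: `RR ψ (asm k C) (asm k C')`; so `RR ψ (asm k B) (asm k B')`. -/
def MjoStmt : Prop := ∀ β : FIC, BaseR β → Itr β → MJS β → MJ2 β

/-- **MJE** (uses NSP).  PROOF.  Let `L` be the list of `EdgeP` for `B`, `B'`.  `NC2 (sup ρ σ)` by NSP, and
`β ≤ sup ρ σ`; so every `e ∈ L` is in `sup ρ σ` and in `τ`.  `JPp`: `e` is in `ρ` or in `σ`, so in `inf ρ τ` or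
`inf σ τ`, hence in `ψ := psi ρ σ τ`.  `NC2 ψ` (`ψ ≤ τ`), `β ≤ ψ`: `RR ψ (asm k B) (asm k B')`. -/
def MjeStmt : Prop := ∀ β : FIC, ApI β → EdgeP β → MJS β

/-- **JPI** (uses CHN).  Join primality from invariant sets.
PROOF.  Let `RR (sup ρ σ) (asm k B0) (asm k B1)` and neither `RR ρ` nor `RR σ` of the two words.  CHN: a
chain of `StM ρ σ k` from `B0` to `B'` with `asm k B1 = asm k B'`.  By induction all families of the chain are
in `A` and have only the letters `0`, `1` (`Sub`).  `B' j = B1 j` for `j ≤ k` (`uniq`), so `A B1`, a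
contradiction. -/
def JpiStmt : Prop :=
  ∀ β : FIC, ApI β → ∀ (k : ℕ) (B0 B1 : ℕ → List ℕ) (A : (ℕ → List ℕ) → Prop), OkB k B0 →
    OkB k B1 → Two01 k B0 → A B0 → ¬ A B1 → (∀ B B', (∀ j ≤ k, B j = B' j) → A B → A B') →
      (∀ θ : FIC, β ≤ θ → NC2 θ → ¬ RR θ (asm k B0) (asm k B1) → ∀ B B' : ℕ → List ℕ, OkB k B →
        OkB k B' → Two01 k B → Two01 k B' → RR θ (asm k B) (asm k B') → A B → A B') →
        JPp β (asm k B0, asm k B1)

/-- **TLM** (uses GLD, DGN, BLK, TLP, D2F, MJO, MJE).  The general sufficiency theorem.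
PROOF.  `D2 β` by D2F, `MJS β` by MJE, `MJ2 β` by MJO, `MJB β` by TLP, `MJN β` by BLK, `MJ β` by DGN, GLD. -/
def TlmStmt : Prop := ∀ β : FIC, BaseR β → Itr β → SWP β → EdgeP β → DistF β

end Pool.Agent.MWS
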