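import Pool.Agent.MWS.Defs

/-!
# Block MWS, part B: the marks lemma (rows)

Shared by all bases with `Itr`.  The order of the letters in a block only matters through
`Bef l x y`: no `x` behind a `y` in the list `l`.  Rules for the rows as in `StmtsA.lean`
(import `Pool.Agent.MWS.StmtsB`).
-/

namespace Pool.Agent.MWS

open Pool.Agent.Helper14_MV Pool.Agent.Helper2_MV Pool.Agent.MVO Pool.Agent.MWL

/-- no `x` behind a `y` -/
def Bef (l : List ℕ) (x y : ℕ) : Prop := ∀ P Q : List ℕ, l = P ++ y :: Q → x ∉ Q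

/-- one exchange of neighbours which only changes `Bef` towards the list `v` -/
def Stq (v u u2 : List ℕ) : Prop :=
  ∃ (A D : List ℕ) (x y : ℕ), x ≠ y ∧ u = A ++ x :: y :: D ∧ u2 = A ++ y :: x :: D ∧
    (Bef u x y → ¬ Bef v x y) ∧ (Bef u2 y x → Bef v y x)

/-- **BFR** (uses nothing).  `Bef` and restrictions, renaming.
PROOF.  First: if `l = P ++ y :: Q` and `x ∈ Q`, then `l.filter p = P.filter p ++ y :: Q.filter p` and
`x ∈ Q.filter p`; conversely if `l.filter p = P' ++ y :: Q'` with `x ∈ Q'`, then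
(`List.filter_eq_append_iff`, `List.filter_eq_cons_iff`) `l = P ++ y :: Q` with `Q.filter p = Q'`, so `x ∈ Q`.
Second: `l.map f = P' ++ f y :: Q'` gives `l = P ++ c :: Q` with `f c = f y`, `P.map f = P'`,
`Q.map f = Q'` (`List.map_eq_append_iff`, `List.map_eq_cons_iff`), so `c = y` by the hypothesis (`c ∈ l`), and
`f x ∈ Q'` iff `x ∈ Q`; the other direction is similar. -/
def BfrStmt : Prop :=
  (∀ (l : List ℕ) (p : ℕ → Bool) (x y : ℕ), p x = true → p y = true →
    (Bef (l.filter p) x y ↔ Bef l x y)) ∧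
  (∀ (l : List ℕ) (f : ℕ → ℕ) (x y : ℕ), (∀ c ∈ l, f c = f x → c = x) → (∀ c ∈ l, f c = f y → c = y) →
    x ∈ l → y ∈ l → (Bef (l.map f) (f x) (f y) ↔ Bef l x y))

/-- **BFX** (uses nothing).  The effect of an exchange on `Bef`.
PROOF.  `u = A ++ x :: y :: D`, `u2 = A ++ y :: x :: D`, `x ≠ y`.
(1) `Bef u x y`: if `y ∈ A`, then the `x` behind `A` is behind a `y`; if `y ∉ A`, the first `y` of `u` is the one
in front of `D` (a decomposition `u = P ++ y :: Q` has `Q = D` or `Q` a suffix of `D`:
`List.append_eq_append_iff` or induction on `A`), so `Bef u x y` iff `x ∉ D`.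
(2) in `u2` the letter `x` stands directly behind `y`.  (3) in `u` the letter `y` stands directly behind
`x`.  (4) is (1) with `x`, `y` exchanged.
(5) Another pair `(c, d)`: a decomposition `u = P ++ d :: Q` with `c ∈ Q`.  It is convenient to use: `¬ Bef l c d`
iff `[d, c]` is a sublist of `l` (`List.Sublist`; `List.cons_sublist_iff`, `List.singleton_sublist`).  For
`(d, c)` different from `(x, y)` and `(y, x)`: `[d, c] <+ A ++ x :: y :: D` iff (`[d,c] <+ A ++ D'`..): split the
sublist by `List.sublist_append_iff`: the part in `x :: y :: D` is `[]`, `[c]` or `[d, c]`; membership of `c` in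
`x :: y :: D` and in `y :: x :: D` is the same; `[d, c] <+ x :: y :: D` iff (`d = x` and `c ∈ y :: D`) or (`d = y` and
`c ∈ D`) or `[d, c] <+ D`; the same for `y :: x :: D`; the two conditions are equivalent because
`(d, c) ≠ (x, y), (y, x)` (if `c = d` both say that there are two occurrences). -/
def BfxStmt : Prop :=
  ∀ (A D : List ℕ) (x y : ℕ), x ≠ y →
    (Bef (A ++ x :: y :: D) x y ↔ (y ∉ A ∧ x ∉ D)) ∧ ¬ Bef (A ++ y :: x :: D) x y ∧
    ¬ Bef (A ++ x :: y :: D) y x ∧ (Bef (A ++ y :: x :: D) y x ↔ (x ∉ A ∧ y ∉ D)) ∧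
    ∀ c d, ¬ (c = x ∧ d = y) → ¬ (c = y ∧ d = x) →
      (Bef (A ++ x :: y :: D) c d ↔ Bef (A ++ y :: x :: D) c d)

/-- **RDC** (uses nothing).  Reduction: every letter occurs at most twice in every block.
PROOF.  Induction on the total length of the blocks `0..k` (sum of the lengths).  If
`(B j).count x ≤ 2` for all `j ≤ k` and `x`, take `C = B`.  Otherwise `3 ≤ (B i).count x` for some `i ≤ k`, so
`B i = P1 ++ x :: (P2 ++ x :: (Q1 ++ x :: Q2))`; remove the middle `x`: `B1 := Function.update B i
(P1 ++ x :: (P2 ++ (Q1 ++ x :: Q2)))`.  `RR β (asm k B) (asm k B1)` by `Itr` backwards with `w = P2`, `w' = Q1`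
and the rest of the word as `p`, `q` (`asm_split`, `asm_update`); the letters of `P2`, `Q1` occur at least
twice in the shorter word: they are multiple in `B` and only the count of `x` decreases, it stays `≥ 2` in
block `i`.  `OkB k B1`, `Shp k B B1` (the count of `x` in block `i` is `≥ 2` before and after, all other
counts are equal), `min (count) 2` is unchanged.  `Bef (B i) c d ↔ Bef (B1 i) c d` for `c ≠ d`: removing the
middle `x` can only matter if `c = x` or `d = x`.  `c = x`: if an `x` stands behind a `d` in `B i` and it is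
the middle one, then the last `x` stands behind this `d` too.  `d = x`: if `c` stands behind the middle
`x`, it stands behind the first one.  (With sublists: `¬ Bef l c d` iff `[d, c] <+ l`.)  Induction for `B1`. -/
def RdcStmt : Prop :=
  ∀ β : FIC, Itr β → ∀ (k : ℕ) (B : ℕ → List ℕ), OkB k B →
    ∃ C : ℕ → List ℕ, OkB k C ∧ Shp k B C ∧ RR β (asm k B) (asm k C) ∧
      (∀ j ≤ k, ∀ c, (C j).count c = min ((B j).count c) 2) ∧
      ∀ j ≤ k, ∀ c d, c ≠ d → (Bef (B j) c d ↔ Bef (C j) c d)

/-- **FRE** (uses nothing).  The free exchanges.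
PROOF.  Write the word as `p ++ A ++ x :: y :: (D ++ q)` with `p = pre C i`, `q = suf C i (k - i)`
(`asm_split`, `asm_update`).  All letters of the block `i` are multiple in the word and stay so when
letters of the block are inserted, so `Itr` can be used for insertions and (backwards) for removals
between two occurrences in the block `i`.
(1) `x ∈ D`, `y ∈ D`: `A x y D ≈ A x y x D` (insert `x` between the `x` and the `x` of `D`) `≈ A x y x y D`
(insert `y`) `≈ A y x y x D` (`ic`, substitution `0 ↦ [x]`, `1 ↦ [y]`) `≈ A y x x D` (remove the second `y`: it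
stands between the first `y` and a `y` of `D`) `≈ A y x D` (remove the second `x`).
(2) `x ∈ A`, `y ∈ A`: `A x y D ≈ A y x y D` (insert `y` in front of `x`: between a `y` of `A` and the `y`) `≈
A x y x y D` (insert `x`: between an `x` of `A` and the `x`) `≈ A y x y x D ≈ A x y x D` (remove the first `y`)
`≈ A y x D` (remove the first `x`).
(3) `x ∈ A`, `x ∈ D`: `A x y D ≈ A y D` (remove) `≈ A y x D` (insert).
(4) `y ∈ A`, `y ∈ D`: `A x y D ≈ A x D ≈ A y x D`.
(When a letter is removed its count stays `≥ 2`, because there is one in front and one behind.) -/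
def FreStmt : Prop :=
  ∀ β : FIC, ApI β → Itr β → ∀ (k : ℕ) (C : ℕ → List ℕ), OkB k C → ∀ i ≤ k,
    ∀ (A D : List ℕ) (x y : ℕ), C i = A ++ x :: y :: D → x ≠ y →
      ((x ∈ D ∧ y ∈ D) ∨ (x ∈ A ∧ y ∈ A) ∨ (x ∈ A ∧ x ∈ D) ∨ (y ∈ A ∧ y ∈ D)) →
        RR β (asm k C) (asm k (Function.update C i (A ++ y :: x :: D)))

/-- **LBB** (uses BFX).  Bubble sort towards `v`.
PROOF.  Claim: for all `v'`, `p`, `u'` with `u'.count c = v'.count c` for all `c`:
`ReflTransGen (Stq (p ++ v')) (p ++ u') (p ++ v')`.  Induction on `v'`.  `v' = []`: `u' = []`.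
`v' = z :: v''`: `z ∈ u'`, so `u' = A ++ z :: B` with `z ∉ A` (first occurrence).  Sub-claim: for every splitting
`A = A1 ++ A2`: `ReflTransGen (Stq v) (p ++ A ++ z :: B) (p ++ A1 ++ z :: (A2 ++ B))`, `v = p ++ z :: v''`, by
induction on the length of `A2`: one exchange of `a` (the last letter of `A1 ++ [a]`) and `z`:
`u = (p ++ A1) ++ a :: z :: (A2 ++ B)`, `u2 = (p ++ A1) ++ z :: a :: (A2 ++ B)`; `a ≠ z` since `z ∉ A`.
(i) `¬ Bef v a z`: `a ∈ u'`, `a ≠ z`, so `a ∈ v''`, and it stands behind the `z` of `v`.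
(ii) if `Bef u2 z a` then by BFX (4) (for `x = a`, `y = z`) `a ∉ p ++ A1` and `z ∉ A2 ++ B`; then `Bef v z a`:
`z ∉ v''` (its count in `v''` is the count in `u'` minus 1, i.e. the count in `A ++ B`, which is 0) and
`a ∉ p`: so no `z` stands behind an `a` in `p ++ z :: v''`.
Take `A1 = []`: the word is `p ++ z :: (A ++ B)`; induction for `v''`, the prefix `p ++ [z]` and
`A ++ B` (counts agree). -/
def LbbStmt : Prop :=
  ∀ u v : List ℕ, (∀ c, u.count c = v.count c) → Relation.ReflTransGen (Stq v) u v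

/-- **MAS** (uses BFX, RDC, FRE, LBB).  The marks lemma.
PROOF.  RDC for `B`, `B'`: `C`, `C'`.  By `Shp k B B'` the counts of every letter `c` with `NS k c` in the block
`j ≤ k` of `C` and of `C'` are equal (`min` of the counts with `2`); the other letters do not occur.  It is
enough to show `RR θ (asm k C) (asm k C')`.  Change block after block: for `m ≤ k + 1` let
`F m := fun j => if j < m then C' j else C j`; show `RR θ (asm k (F m)) (asm k (F (m+1)))` for `m ≤ k`
(induction, `asm_congr` at the end).  Let `i = m`, `v = C' i`.  LBB: a chain `Stq v` from `C i` to `v`.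
For a list `u` let `G u := Function.update (F i) i u`.  By induction along the chain show for every `u` of
the chain: (a) `u` has the same counts as `C i` (so `OkB k (G u)` and `Shp k B (G u)`), (b) for `c ≠ d`: if
`¬ (Bef u c d ↔ Bef v c d)` then `Bef (C i) c d ↔ Bef u c d`, (c) `RR θ (asm k (G (C i))) (asm k (G u))`.
Step `u = A ++ x :: y :: D → u2 = A ++ y :: x :: D` of `Stq v`:
(a) clear.  (b) by BFX: for pairs `(c, d)` different from `(x, y)`, `(y, x)` `Bef u c d ↔ Bef u2 c d`.  `(x, y)`:
`Bef u2 x y` is false; if it differs from `v` then `Bef v x y`, so `¬ Bef u x y` by `Stq`, so `u` and `u2`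
agree and differ from `v`.  `(y, x)`: `Bef u y x` is false; if `Bef u2 y x` differs from `Bef v y x`, then
`¬ Bef u2 y x` (by `Stq`), so again `u` and `u2` agree.  In all cases apply (b) for `u`.
(c) Case `Bef u x y`: BFX: `y ∉ A`, `x ∉ D`; `¬ Bef v x y`; by (b) `Bef (C i) x y`; so by RDC `Bef (B i) x y` and
`¬ Bef (B' i) x y`: hypothesis `H` for `G u`.  Case `Bef u2 y x`: BFX: `x ∉ A`, `y ∉ D`; `Bef v y x`, so
`Bef (B' i) y x`; `¬ Bef u y x`, so by (b) `¬ Bef (C i) y x`, `¬ Bef (B i) y x`: hypothesis `H` for `G u2`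
with `x`, `y` exchanged, then symmetry.  Otherwise by BFX (`y ∈ A` or `x ∈ D`) and (`x ∈ A` or `y ∈ D`):
FRE (for `β`, then `β ≤ θ`).  (`Function.update (G u) i u2 = G u2`.) -/
def MasStmt : Prop :=
  ∀ β θ : FIC, ApI β → Itr β → β ≤ θ → ∀ (k : ℕ) (B B' : ℕ → List ℕ), OkB k B → OkB k B' →
    Shp k B B' →
      (∀ (C : ℕ → List ℕ) (i : ℕ) (A D : List ℕ) (x y : ℕ), OkB k C → Shp k B C → i ≤ k →
        C i = A ++ x :: y :: D → x ≠ y → x ∉ D → y ∉ A → ¬ (Bef (B i) x y ↔ Bef (B' i) x y) →
          RR θ (asm k C) (asm k (Function.update C i (A ++ y :: x :: D)))) →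
        RR θ (asm k B) (asm k B')

end Pool.Agent.MWS
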