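import Pool.Agent.MWS.StmtsA
import Pool.Agent.MWS.StmtsB

/-!
# Block MWS, part W: the classes W1 and B_II (rows)

Classes with `x² ≈ x³`, `xyx ≈ x²yx²`, `xyxy ≈ yxyx` (every multiple letter is idempotent).  A
relation `V k a b i` says when in block `i` the fact `all x before all y` is visible, for letters
`x`, `y` with the types `a`, `b`.  Rules for the rows as in `StmtsA.lean` (import
`Pool.Agent.MWS.StmtsW`).  Tools: `rr_ins`, `rr_ins'`, `rr_sub`, `asm_split`, `asm_update`,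
`asm_filter`, `count_asm`, `mem_asm`, `mem_pre`, `mem_suf`.
-/

namespace Pool.Agent.MWS

open Pool.Agent.Helper14_MV Pool.Agent.Helper2_MV Pool.Agent.MVO Pool.Agent.MWL

/-- `x² ≈ x³`, `xyxy ≈ yxyx`, `xyx ≈ x²yx²` -/
structure ClX (β : FIC) : Prop extends ApI β where
  be : RR β [0, 1, 0] [0, 0, 1, 0, 0]

/-- `2` if the entry is not `0` -/
def hv (n : ℕ) : ℕ := if n = 0 then 0 else 2

/-- canonical two letter blocks: the word `l` in block `i`, elsewhere `0²` and `1²` in the order `e j` -/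
def cb (a b : ℕ → ℕ) (e : ℕ → Bool) (i : ℕ) (l : List ℕ) : ℕ → List ℕ :=
  fun j => if j = i then l else bl (hv (a j)) (hv (b j)) (e j)

/-- the edge for the orders `e`: `x²y² ≈ xyxy` in block `i` for letters of the types `a`, `b` -/
def edg (k : ℕ) (a b : ℕ → ℕ) (e : ℕ → Bool) (i : ℕ) : List ℕ × List ℕ :=
  (asm k (cb a b e i [0, 0, 1, 1]), asm k (cb a b e i [0, 1, 0, 1]))

/-- all edges of the types `a`, `b` in block `i` are in `θ` -/
def TE (θ : FIC) (k : ℕ) (a b : ℕ → ℕ) (i : ℕ) : Prop :=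
  ∀ e : ℕ → Bool, RR θ (edg k a b e i).1 (edg k a b e i).2

/-- a visibility relation -/
structure VisOk (V : ℕ → (ℕ → ℕ) → (ℕ → ℕ) → ℕ → Prop) : Prop where
  ext : ∀ (k : ℕ) (a b a' b' : ℕ → ℕ) (i : ℕ), (∀ j ≤ k, (a j = 0 ↔ a' j = 0) ∧ (b j = 0 ↔ b' j = 0)) →
    V k a b i → V k a' b' i
  mem : ∀ (k : ℕ) (a b : ℕ → ℕ) (i : ℕ), V k a b i → i ≤ k ∧ a i ≠ 0 ∧ b i ≠ 0
  uni : ∀ (k : ℕ) (a b : ℕ → ℕ) (i i' : ℕ), V k a b i → V k a b i' → i = i'
  unj : ∀ (k : ℕ) (a b : ℕ → ℕ) (i i' : ℕ), V k a b i → V k b a i' → i = i'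

/-- a class of idempotent multiple letters with the visibility relation `V` -/
structure ClV (V : ℕ → (ℕ → ℕ) → (ℕ → ℕ) → ℕ → Prop) (β : FIC) : Prop extends ClX β where
  itr : Itr β
  xch : ∀ θ : FIC, β ≤ θ → ∀ (k : ℕ) (C : ℕ → List ℕ), OkB k C → ∀ i ≤ k, ∀ (A D : List ℕ) (x y : ℕ),
    C i = A ++ x :: y :: D → x ≠ y → x ∈ A → x ∉ D → y ∉ A → y ∈ D →
      (¬ V k (ty C x) (ty C y) i ∨ TE θ k (ty C x) (ty C y) i) →
        RR θ (asm k C) (asm k (Function.update C i (A ++ y :: x :: D)))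

/-- the same letters in every block -/
def SmL (k : ℕ) (B B' : ℕ → List ℕ) : Prop := ∀ j ≤ k, ∀ c, c ∈ B j ↔ c ∈ B' j

/-- the identity `x²tsx² ≈ x²tx²sx²` -/
def FF2 (θ : FIC) : Prop := RR θ [0, 0, 2, 3, 0, 0] [0, 0, 2, 0, 0, 3, 0, 0]

/-- the class W1: in addition `x y² t x ≈ x y² x t x` -/
structure ClW (β : FIC) : Prop extends ClX β where
  e0 : RR β [0, 1, 1, 2, 0] [0, 1, 1, 0, 2, 0]

/-- the class B_II: in addition `Itr` and: two letters commute if both are in a factor of multiple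
letters in another place of the word -/
structure ClB (β : FIC) : Prop extends ClX β where
  itr : Itr β
  dd : ∀ (p q : List ℕ) (x y : ℕ) (c : List ℕ),
    ((∃ r s, p = r ++ c ++ s) ∨ (∃ r s, q = r ++ c ++ s)) → x ∈ c → y ∈ c →
      (∀ z ∈ c, 2 ≤ (p ++ x :: y :: q).count z) → RR β (p ++ x :: y :: q) (p ++ y :: x :: q)

/-- W1: `x` does not occur behind block `i` -/
def VW (k : ℕ) (a b : ℕ → ℕ) (i : ℕ) : Prop :=
  i ≤ k ∧ a i ≠ 0 ∧ b i ≠ 0 ∧ ∀ j, i < j → j ≤ k → a j = 0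

/-- B_II: `i` is the only common block -/
def VB (k : ℕ) (a b : ℕ → ℕ) (i : ℕ) : Prop :=
  i ≤ k ∧ a i ≠ 0 ∧ b i ≠ 0 ∧ ∀ j ≤ k, j ≠ i → a j = 0 ∨ b j = 0

/-! ### idempotent letters -/

/-- **BSX** (uses nothing).  PROOF.  `be` with `1 ↦ [0, 2]` (and `0 ↦ [0]`): `[0,0,2,0] ≈ [0,0,0,2,0,0]`,
and `[0,0,0] ≈ [0,0]` (`ap`, appended to `[2,0,0]`). -/
def BsxStmt : Prop := ∀ β : FIC, ClX β → BaseR β

/-- **IDX** (uses nothing).  A multiple letter can be repeated.
PROOF.  It is enough to treat `n = 2` (then induction on `n`: repeat the first of the `n` letters).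
`x ∈ q`, `q = q1 ++ x :: q2`: `be` with `0 ↦ [x]`, `1 ↦ q1`: (*) `x q1 x ≈ x x q1 x x`.  Append `[x]` in front:
`x x q1 x ≈ x x x q1 x x ≈ x x q1 x x` (`ap`) `≈ x q1 x` by (*).  So `p ++ x :: q ≈ p ++ x :: x :: q`.
`x ∈ p`: mirror image. -/
def IdxStmt : Prop :=
  ∀ β : FIC, ClX β → ∀ (p q : List ℕ) (x : ℕ), (x ∈ p ∨ x ∈ q) → ∀ n, 1 ≤ n →
    RR β (p ++ x :: q) (p ++ (List.replicate n x ++ q))

/-- **DBX** (uses MWS.BLR, IDX).  All letters can be doubled.
PROOF.  BLR (part A): in the block `m ≤ k` double the letters of `B m` one after the other (induction on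
the list `B m = U ++ V`: the block `U.flatMap [c,c] ++ V`), each time IDX with `n = 2`; the letter occurs
elsewhere in the word since it occurs at least twice in `asm k B` (`Mlt`, `count_asm`, `asm_split`) and
doubling does not decrease counts.  The other statements: counts in `Bd` are twice the counts in `B`;
`Bef`: with `¬ Bef l x y ↔ [y, x] <+ l` (`x ≠ y`), or by induction on `l`: the doubled list has an `x` behind a
`y` iff `l` has. -/
def DbxStmt : Prop :=
  ∀ β : FIC, ClX β → ∀ (k : ℕ) (B : ℕ → List ℕ), OkB k B →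
    RR β (asm k B) (asm k (fun j => (B j).flatMap (fun c => [c, c]))) ∧
    OkB k (fun j => (B j).flatMap (fun c => [c, c])) ∧
    (∀ j c, ((B j).flatMap (fun c => [c, c])).count c = 2 * (B j).count c) ∧
    ∀ j x y, x ≠ y → (Bef ((B j).flatMap (fun c => [c, c])) x y ↔ Bef (B j) x y)

/-! ### the general theorem for a visibility relation -/

/-- **NFV** (uses MWS.MAS, DBX).  Normal form: the letters of the blocks and the visible facts
determine the word.
PROOF.  Let `Bd`, `Bd'` be the doubled families (DBX); it is enough to relate them.  `Shp k Bd Bd'`: for every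
letter and `j ≤ k` both counts are `0` or both are `≥ 2` (`SmL`).  MAS (part B).  Let `C` be as in its
hypothesis: `C i = A ++ x :: y :: D`, `x ∉ D`, `y ∉ A`, and `Bef (Bd i) x y`, `Bef (Bd' i) x y` are different, so
`Bef (B i) x y`, `Bef (B' i) x y` are different.  `Shp k Bd C`: every letter occurs in every block of `C` either
not or at least twice, and exactly in the blocks where it occurs in `B` (`x`, `y` satisfy `NS k` because
`OkB k C`).  So `x ∈ A`, `y ∈ D`.  If `V k (ty B x) (ty B y) i`: by hypothesis `TE θ k (ty B x) (ty B y) i`, and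
`TE` only depends on the supports on `0..k` (`hv`, `asm_congr`), so `TE θ k (ty C x) (ty C y) i`.  If not, then
`¬ V k (ty C x) (ty C y) i` by `VisOk.ext`.  Apply `xch`. -/
def NfvStmt : Prop :=
  ∀ (V : ℕ → (ℕ → ℕ) → (ℕ → ℕ) → ℕ → Prop) (β θ : FIC), VisOk V → ClV V β → β ≤ θ →
    ∀ (k : ℕ) (B B' : ℕ → List ℕ), OkB k B → OkB k B' → SmL k B B' →
      (∀ (x y i : ℕ), x ≠ y → V k (ty B x) (ty B y) i → ¬ (Bef (B i) x y ↔ Bef (B' i) x y) →
        TE θ k (ty B x) (ty B y) i) → RR θ (asm k B) (asm k B')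

/-- **TEV** (uses NFV).  The orders in the other blocks of an edge do not matter.
PROOF.  Both words with the orders `e`, `e'` have the same letters in every block and the same letters in
block `i`.  NFV for `θ = β`: let `x ≠ y`, `V k (ty x) (ty y) j` for the types of `cb a b e i l`; by `mem` both
letters occur, so `{x, y} = {0, 1}`, and the types of `0`, `1` have the supports of `a`, `b` (in block `i` because
`l` contains both letters and `a i, b i ≠ 0`), so by `ext` `V k a b j` or `V k b a j`; with `V k a b i` and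
`uni` / `unj`: `j = i`, where the blocks are equal.  So `RR β` of the two words for `l = [0,0,1,1]` and for
`l = [0,1,0,1]`; hence `RR θ` of an edge for one `e` gives all `e`.  (`OkB`: the counts of `0` and `1` are `≥ 2`.) -/
def TevStmt : Prop :=
  ∀ (V : ℕ → (ℕ → ℕ) → (ℕ → ℕ) → ℕ → Prop) (β θ : FIC), VisOk V → ClV V β → β ≤ θ →
    ∀ (k : ℕ) (a b : ℕ → ℕ) (i : ℕ), V k a b i → ∀ e : ℕ → Bool,
      RR θ (edg k a b e i).1 (edg k a b e i).2 → TE θ k a b i

/-- **TWV** (uses NFV).  A visible difference gives the edge.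
PROOF.  `rr_ins'` with `P i = [0]`, all other insertions empty: `RR θ (asm k C) (asm k C')` with
`C i = 0 :: B i`, `C' i = 0 :: B' i`, `C j = B j`, `C' j = B' j` else.  Let `a = ty B 0`, `b = ty B 1`, `e` any.
Claim: `RR β (asm k C) (asm k (cb a b e i [0,0,1,1]))` and `RR β (asm k C') (asm k (cb a b e i [0,1,0,1]))`.  NFV
for `θ = β`: the letters of the blocks are the same (`a i ≠ 0`, `b i ≠ 0` by `mem`; `SmL k B B'`).  The
condition: let `x ≠ y` and `V k (ty C x) (ty C y) j`; both letters occur, so `{x, y} = {0, 1}`; the supports are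
those of `a`, `b`, so `V k a b j` or `V k b a j`, hence `j = i` by `uni`, `unj`.  The facts in block `i`:
`Bef (0 :: B i) 0 1` is true (`0 ∉ ` behind a `1` in `B i`), `Bef [0,0,1,1] 0 1` is true; `Bef (0 :: B i) 1 0` is false
(`1 ∈ B i` stands behind the first `0`), `Bef [0,0,1,1] 1 0` is false.  `Bef (0 :: B' i) 0 1` and
`Bef [0,1,0,1] 0 1` are false; `Bef (0 :: B' i) 1 0`, `Bef [0,1,0,1] 1 0` are false. -/
def TwvStmt : Prop :=
  ∀ (V : ℕ → (ℕ → ℕ) → (ℕ → ℕ) → ℕ → Prop) (β θ : FIC), VisOk V → ClV V β → β ≤ θ →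
    ∀ (k : ℕ) (B B' : ℕ → List ℕ), OkB k B → OkB k B' → Two01 k B → Two01 k B' → SmL k B B' →
      ∀ i, V k (ty B 0) (ty B 1) i → RR θ (asm k B) (asm k B') → Bef (B i) 0 1 → ¬ Bef (B' i) 0 1 →
        TE θ k (ty B 0) (ty B 1) i

/-- **SWV** (uses MWS.BFR, NFV, TWV).  PROOF.  Let `B`, `B'` have the same shape and `θ`-related
restrictions.  `SmL k B B'` (`Shp`: equal counts or both `≥ 2`; letters which are simple do not occur in the
blocks).  NFV: let `x ≠ y`, `V k (ty B x) (ty B y) i` and let the facts `Bef (B i) x y`, `Bef (B' i) x y` be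
different.  `C j := (r2 x y B j).map f` with `f c = if c = x then 0 else 1`, `C'` the same for `B'`;
`RR θ (asm k C) (asm k C')` (`rr_sub` with `c ↦ [f c]`).  `ty C 0 = ty B x`, `ty C 1 = ty B y`, `OkB`, `Two01`,
`SmL k C C'`; `Bef (C i) 0 1 ↔ Bef (B i) x y` by BFR (filter, then map), the same for `C'`.  If `Bef (C i) 0 1`:
TWV for `C`, `C'`.  Otherwise `Bef (C' i) 0 1`, `¬ Bef (C i) 0 1`: TWV for `C'`, `C` (`ext`, `RR.symm`) gives
`TE θ k (ty C' 0) (ty C' 1) i`, and the supports are equal. -/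
def SwvStmt : Prop :=
  ∀ (V : ℕ → (ℕ → ℕ) → (ℕ → ℕ) → ℕ → Prop) (β : FIC), VisOk V → ClV V β → SWP β

/-- **FEX** (uses IDX).  The identity `x²tsx² ≈ x²tx²sx²` gives an edge if `y` occurs before block `i` or `x`
behind it.
PROOF.  Fix `e`; the words are `p ++ [0,0,1,1] ++ q` and `p ++ [0,1,0,1] ++ q` with `p = pre .. i`,
`q = suf .. i (k-i)` (`asm_split`; `cb` at `i`).  First case: `b j ≠ 0`, `j < i`: the block `j` contains `[1, 1]` as a
factor, so `p = p1 ++ [1,1] ++ p2`.  `FF2` with `0 ↦ [1]`, `2 ↦ p2 ++ [0]`, `3 ↦ [0]`: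
`[1,1] ++ p2 ++ [0] ++ [0] ++ [1,1] ≈ [1,1] ++ p2 ++ [0] ++ [1,1] ++ [0] ++ [1,1]`, so the first word is
`≈ p ++ [0,1,1,0,1,1] ++ q ≈ p ++ [0,1,0,1] ++ q` (IDX backwards for the letter `1`, twice, `n = 2`).  Second
case: `a j ≠ 0`, `i < j ≤ k`: `q = q1 ++ [0,0] ++ q2`; `FF2` with `0 ↦ [0]`, `2 ↦ [1]`, `3 ↦ [1] ++ q1`:
`[0,0,1,1] ++ q1 ++ [0,0] ≈ [0,0,1,0,0,1] ++ q1 ++ [0,0]`, and IDX backwards. -/
def FexStmt : Prop :=
  ∀ β θ : FIC, ClX β → β ≤ θ → FF2 θ → ∀ (k : ℕ) (a b : ℕ → ℕ) (i : ℕ), i ≤ k →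
    ((∃ j < i, b j ≠ 0) ∨ ∃ j, i < j ∧ j ≤ k ∧ a j ≠ 0) → TE θ k a b i

/-- **SPF** (uses MWL.KEY, MWL.ARR, MWL.TA1, MWL.TA2).  A change of a support gives `F`.
PROOF.  `R := FC.ofFIC θ`.  By KEY `a` absorbs at `i` (otherwise `a i = a' i`).  `a i = 0`.  If some block
`p < i` has `2 ≤ a p`: TA1 (1) or (2): `F` or `E`, and `E → F` (ARR).  Otherwise all entries in `0..i` are
`≤ 1`.  If some block `q > i`, `q ≤ k`, has `2 ≤ a q`: TA1 (3): `GG`, which is `G` (`→ F` by ARR) or contains `F`.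
If all entries are `≤ 1`: TA2 (2) or (3): `GG` or `E`, again `F`. -/
def SpfStmt : Prop :=
  ∀ (R : FC), LR 1 R → ND R → ∀ (k : ℕ) (a a' : ℕ → ℕ) (i : ℕ), i ≤ k → 2 ≤ deg k a →
    R.R k a a' → a i = 0 → a' i ≠ 0 → Has 1 R Bit.F

/-- **JPV** (uses MVO.ONE, MWS.CAP, MWS.NDN, MWS.LRN, MWS.JPI, BSX, NFV, TEV, TWV, FEX, SPF).  The
edges are join prime.
PROOF.  JPI (part A) for `B0 = cb a b e i [0,0,1,1]`, `B1 = cb a b e i [0,1,0,1]` (both `OkB`, letters 0, 1).
CASE 1: `b j ≠ 0` for some `j < i`, or `a j ≠ 0` for some `i < j ≤ k`.  `A B` := (for all `j ≤ k`: `0 ∈ B j ↔ a j ≠ 0`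
and `1 ∈ B j ↔ b j ≠ 0`) and `Bef (B i) 0 1`.  Closure: let `θ` not contain the edge, `RR θ (asm k B) (asm k B')`,
`A B`.  `FF2 θ` is false, otherwise FEX gives the edge.  `FF2 θ` is `Has 1 (FC.ofFIC θ) Bit.F` (the words
`mw 2 (v3 2 0 2)`, `mw 2 (ad ..)` are `[0,0,2,3,0,0]`, `[0,0,2,0,0,3,0,0]`).  By ONE
`L1 θ k (ty B c) (ty B' c)` for `c = 0, 1`; the degrees are `≥ 2` (`OkB`; `a i, b i ≠ 0` by `mem`, so both letters
occur in `B`); SPF (`LR` by BSX and LRN, `ND` by NDN; also for the pair `(B', B)`; if `c` did not occur in `B'`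
then `ND` gives a contradiction) shows that the supports of `ty B c`, `ty B' c` on `0..k` are equal.
So `SmL k B B'`.  If `Bef (B' i) 0 1` fails: TWV (with `V k (ty B 0) (ty B 1) i` by `ext`) gives
`TE θ k (ty B 0) (ty B 1) i`, which is `TE θ k a b i` (only supports matter), so the edge is in `θ`, a
contradiction.
CASE 2: `b j = 0` for all `j < i` and `a j = 0` for all `i < j ≤ k`.  Let `g w := w.filter (fun c => decide (c < 2))`.
`A B` := `0 ∈ asm k B`, `1 ∈ asm k B` and `Bef (g (asm k B)) 0 1`.  `A B0`: `g (asm k B0)` is the concatenation of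
the blocks; no `0` behind block `i`, no `1` before block `i`.  `¬ A B1`.  Closure: let
`RR θ (asm k B) (asm k B')`, `A B`; the letters 0, 1 occur in `asm k B'` by CAP.  Suppose `Bef (g (asm k B')) 0 1` is
false.  `RR θ (g (asm k B)) (g (asm k B'))` (`RR.filter`).  Multiply with `[0,0]` from the left and `[1,1]`
from the right.  NFV for `θ = β`, `k = 0`: `[0,0] ++ g (asm k B) ++ [1,1] ≈ [0,0,1,1]` and
`[0,0] ++ g (asm k B') ++ [1,1] ≈ [0,1,0,1]` in `β` (`asm 0 B = B 0`): the letters are 0 and 1 in all words; the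
facts for `(0, 1)`: true, true and false, false; for `(1, 0)`: false in all words.  So
`RR θ [0,0,1,1] [0,1,0,1]`, and with the context (`asm_split`, `RR.append`) the edge is in `θ`, a contradiction. -/
def JpvStmt : Prop :=
  ∀ (V : ℕ → (ℕ → ℕ) → (ℕ → ℕ) → ℕ → Prop) (β : FIC), VisOk V → ClV V β →
    ∀ (k : ℕ) (a b : ℕ → ℕ) (e : ℕ → Bool) (i : ℕ), V k a b i → JPp β (edg k a b e i)

/-- **EDV** (uses NFV, TEV, TWV, JPV).  PROOF.  Let `B`, `B'` be as in `EdgeP`; `SmL k B B'`.  `a = ty B 0`,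
`b = ty B 1`, `e` any.  `L1` := `[edg k a b e i]` if there is `i` with `V k a b i` and different facts
`Bef (B i) 0 1`, `Bef (B' i) 0 1` (`i` is unique by `uni`), `[]` otherwise.  `L2` := `[edg k b a e i]` if there is `i`
with `V k b a i` and different facts `Bef (B i) 1 0`, `Bef (B' i) 1 0`, `[]` otherwise.  `L = L1 ++ L2`; the
edges are join prime by JPV.  (←) NFV: a pair `x ≠ y` with `V k (ty B x) (ty B y) i` is `(0, 1)` or `(1, 0)` (`mem`,
`Two01`); the edge in `θ` gives `TE` by TEV.  (→) `L1`: if `Bef (B i) 0 1` holds: TWV; otherwise TWV for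
`(B', B)` (the supports are equal: `ext`, and `TE` only depends on the supports).  `L2`: the same for the
families with the letters 0 and 1 exchanged (`rr_sub` with `0 ↦ [1]`, `1 ↦ [0]`; `Bef` under this map). -/
def EdvStmt : Prop :=
  ∀ (V : ℕ → (ℕ → ℕ) → (ℕ → ℕ) → ℕ → Prop) (β : FIC), VisOk V → ClV V β → EdgeP β

/-- **DSV** (uses MWS.TLM, BSX, SWV, EDV).  PROOF.  TLM of part A with BSX, `ClV.itr`, SWV, EDV. -/
def DsvStmt : Prop :=
  ∀ (V : ℕ → (ℕ → ℕ) → (ℕ → ℕ) → ℕ → Prop) (β : FIC), VisOk V → ClV V β → DistF β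

/-! ### the class W1 -/

/-- **EWX** (uses IDX).  `p a b q ≈ p a b a q` if `a ∈ q` and `b` is multiple.
PROOF.  `a = b`: `p a a q ≈ p a a a q` by IDX (`a ∈ q`).  Let `a ≠ b`.  IDX: `p a b q ≈ p a b b q` (`b ∈ p` or `b ∈ q`).
`q = q1 ++ a :: q2`: `e0` with `0 ↦ [a]`, `1 ↦ [b]`, `2 ↦ q1`: `a b b q1 a ≈ a b b a q1 a`.  So
`p a b b q ≈ p a b b a q ≈ p a b a q` (IDX). -/
def EwxStmt : Prop :=
  ∀ β : FIC, ClW β → ∀ (p q : List ℕ) (a b : ℕ), a ∈ q → (b ∈ p ∨ b ∈ q) →
    RR β (p ++ a :: b :: q) (p ++ a :: b :: a :: q)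

/-- **EWL** (uses IDX, EWX).  The same with a word `w` of multiple letters instead of `b`.
PROOF.  Induction on `w`, `p` general.  `w = []`: IDX.  `w = b :: w'`: `p a b w' q ≈ p a b a w' q` (EWX;
`a ∈ w' ++ q`; if `b ≠ a` then `b` occurs in `p` or in `w' ++ q` because its count is `≥ 2`; if `b = a` then
`b ∈ q`) `≈ p a b a w' a q` (induction for `p ++ [a, b]`) `≈ p a b w' a q` (EWX backwards). -/
def EwlStmt : Prop :=
  ∀ β : FIC, ClW β → ∀ (w p q : List ℕ) (a : ℕ), a ∈ q →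
    (∀ c ∈ w, 2 ≤ (p ++ a :: (w ++ q)).count c) →
      RR β (p ++ a :: (w ++ q)) (p ++ a :: (w ++ a :: q))

/-- **XCW** (uses MWS.BLR, IDX, EWL).  The class W1 has the visibility relation `VW`.
PROOF.  `VisOk VW`: `ext`, `mem` clear.  `uni`: `i` and `i'` are both the last block with `a j ≠ 0`.  `unj`:
`V k a b i`, `V k b a i'`: `a i' ≠ 0` gives `i' ≤ i`, `b i ≠ 0` gives `i ≤ i'`.
`Itr`: EWL with `q := w' ++ x :: q`.
`xch`: `C i = A ++ x :: y :: D`, `x ∈ A`, `x ∉ D`, `y ∉ A`, `y ∈ D`.  The letters of the blocks are multiple in the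
word, also in all words below.
(1) `x ∈ C j` for some `i < j ≤ k`: `A = A1 ++ x :: A2`; EWL backwards (with `a = x`, `w = A2`, `q = y :: D ++ suf`,
which contains `x`) removes the `x` in front of `y`; EWL with `w = A2 ++ [y]` inserts it behind `y`.
(2) Otherwise `VW k (ty C x) (ty C y) i` holds, so `TE θ k (ty C x) (ty C y) i`.  Choose `e`, `P j`, `Q j`
for `j ≤ k`, `j ≠ i` such that `C j` can be replaced by `P j ++ X j ++ Q j`, where `X j` is
`bl (hv (ty C x j)) (hv (ty C y j)) (e j)` with `0 ↦ x`, `1 ↦ y`, in every context which contains the other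
blocks: if neither `x` nor `y` is in `C j`: `P j = C j`, `Q j = []`, `X j = []`.  Only `x` (only `y`):
`C j = P ++ x :: Q`, double this `x` (IDX; `x ∈ C i`).  Both (then `j < i`, since `x` does not occur behind `i`):
let `C j = P1 ++ x :: (P2 ++ y :: Q)` with `y ∉ P1 ++ x :: P2` (the first `x` is before the first `y`): EWL
(`w = P2 ++ [y]`, `x ∈ C i` is behind) inserts an `x` behind this `y`; double both: `X j = [y,y,x,x]`,
`e j = true`; if the first `y` is before the first `x`: exchange the roles (`y ∈ C i`), `X j = [x,x,y,y]`,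
`e j = false`.  In block `i`: `A ++ [x,x,y,y] ++ D` (IDX).  BLR (with `θ = β`) replaces all blocks.
`rr_ins` for `TE` at `e` with `h 0 = [x]`, `h 1 = [y]`, `P i = A`, `Q i = D` gives in `θ` the same word with
`A ++ [x,y,x,y] ++ D` in block `i`.  Go back in the other blocks.  In block `i`: `A x y x y D ≈ A y x y D`
(remove the first `x`: it is between an `x` of `A` and the next `x`: `Itr` backwards) `≈ A y x D` (remove the
second `y`: it is between the first `y` and a `y` of `D`). -/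
def XcwStmt : Prop := VisOk VW ∧ ∀ β : FIC, ClW β → ClV VW β

/-- **W1D** (uses DSV, XCW).  The lattice above W1 is distributive. -/
def W1dStmt : Prop := ∀ β : FIC, ClW β → DistF β

/-! ### the class B_II -/

/-- **XCB** (uses MWS.BLR, IDX).  The class B_II has the visibility relation `VB`.
PROOF.  `VisOk VB`: clear (`uni`, `unj`: if `i' ≠ i` were also a common block, `a i' = 0` or `b i' = 0`).
`xch`: (1) `x, y ∈ C j` for some `j ≤ k`, `j ≠ i`: `dd` with `c = C j` (`asm_split`; `C j` is a factor of the word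
before or behind the block `i`: `pre_split`, `suf_split`).
(2) Otherwise `VB k (ty C x) (ty C y) i`, so `TE θ k (ty C x) (ty C y) i`.  For `j ≤ k`, `j ≠ i` at most one of
`x`, `y` is in `C j`; double one occurrence (IDX): `C j = P ++ x :: Q` becomes `P ++ [x,x] ++ Q` (or the
same with `y`, or `P = C j`, `Q = []`).  Block `i`: `A ++ [x,x,y,y] ++ D`.  BLR replaces all blocks; `rr_ins` for
`TE` (any `e`; the order does not matter because one of the powers is empty) gives
`A ++ [x,y,x,y] ++ D`; go back; `Itr` as in XCW: `A x y x y D ≈ A y x y D ≈ A y x D`. -/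
def XcbStmt : Prop := VisOk VB ∧ ∀ β : FIC, ClB β → ClV VB β

/-- **B2D** (uses DSV, XCB).  The lattice above B_II is distributive. -/
def B2dStmt : Prop := ∀ β : FIC, ClB β → DistF β

end Pool.Agent.MWS
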