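import Pool.Agent.MWL.Stmts
import Pool.Agent.MVO.StmtsG2
import Pool.Agent.MVO.Split

/-!
# The two letter principle (definitions)

Block MWS of the full answer to MP_23468a_al.  General sufficiency theorem for aperiodic classes
with `x² ≈ x³`, `xyxy ≈ yxyx`, `x² t x ≈ x² t x²`: if every congruence above `β` exchanges what
two letter words allow (`SWP`) and the edges of the two letter words are join prime (`EdgeP`),
then the lattice of the fully invariant congruences above `β` is distributive.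
-/

namespace Pool.Agent.MWS

open Pool.Agent.Helper14_MV Pool.Agent.Helper2_MV Pool.Agent.MVO Pool.Agent.MWL

/-- `x² ≈ x³` and `xyxy ≈ yxyx` -/
structure ApI (β : FIC) : Prop where
  ap : RR β [0, 0] [0, 0, 0]
  ic : RR β [0, 1, 0, 1] [1, 0, 1, 0]

/-- `x² ≈ x³`, `xyxy ≈ yxyx` and `x² t x ≈ x² t x²` -/
structure BaseR (β : FIC) : Prop extends ApI β where
  rr : RR β [0, 0, 2, 0] [0, 0, 2, 0, 0]

/-- between two occurrences of `x` a further `x` can be inserted if there are only multiple letters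
between them -/
def Itr (β : FIC) : Prop :=
  ∀ (p w w' q : List ℕ) (x : ℕ),
    (∀ c, c ∈ w ∨ c ∈ w' → 2 ≤ (p ++ x :: (w ++ (w' ++ x :: q))).count c) →
      RR β (p ++ x :: (w ++ (w' ++ x :: q))) (p ++ x :: (w ++ x :: (w' ++ x :: q)))

/-- all letters of the blocks are multiple -/
def Mlt (k : ℕ) (B : ℕ → List ℕ) : Prop :=
  ∀ j ≤ k, ∀ c ∈ B j, 2 ≤ deg k (fun j => (B j).count c)

/-- the type of the letter `c` -/
def ty (B : ℕ → List ℕ) (c : ℕ) : ℕ → ℕ := fun j => (B j).count c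

/-- the letters of the blocks of `B'` are letters of the blocks of `B` -/
def Sub (k : ℕ) (B B' : ℕ → List ℕ) : Prop := ∀ c, (∃ j ≤ k, c ∈ B' j) → ∃ j ≤ k, c ∈ B j

/-- the letters of the blocks are `0` and `1` -/
def Two01 (k : ℕ) (B : ℕ → List ℕ) : Prop := ∀ j ≤ k, ∀ c ∈ B j, c = 0 ∨ c = 1

/-- the same shape of all letters -/
def Shp (k : ℕ) (B B' : ℕ → List ℕ) : Prop := ∀ c, NS k c → Sh k (ty B c) (ty B' c)

/-- admissible block words: the letters of the blocks are multiple letters -/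
structure OkB (k : ℕ) (B : ℕ → List ℕ) : Prop where
  ok : BlkOk k B
  ml : Mlt k B

/-- `(ρ ∧ τ) ∨ (σ ∧ τ)` -/
def psi (ρ σ τ : FIC) : FIC := FIC.sup (FIC.inf ρ τ) (FIC.inf σ τ)

/-- the distributive law -/
def MJ (β : FIC) : Prop :=
  ∀ ρ σ τ : FIC, β ≤ ρ → β ≤ σ → β ≤ τ → ∀ u v : List ℕ, RR (FIC.sup ρ σ) u v → RR τ u v →
    RR (psi ρ σ τ) u v

/-- the distributive law for congruences which do not contain `xy ≈ yx` -/
def MJN (β : FIC) : Prop :=
  ∀ ρ σ τ : FIC, β ≤ ρ → β ≤ σ → β ≤ τ → NC2 ρ → NC2 σ → NC2 τ → ∀ u v : List ℕ,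
    RR (FIC.sup ρ σ) u v → RR τ u v → RR (psi ρ σ τ) u v

/-- the same for words in blocks -/
def MJB (β : FIC) : Prop :=
  ∀ ρ σ τ : FIC, β ≤ ρ → β ≤ σ → β ≤ τ → NC2 ρ → NC2 σ → NC2 τ → ∀ (k : ℕ) (B B' : ℕ → List ℕ),
    OkB k B → OkB k B' → RR (FIC.sup ρ σ) (asm k B) (asm k B') → RR τ (asm k B) (asm k B') →
      RR (psi ρ σ τ) (asm k B) (asm k B')

/-- the same for words with two multiple letters -/
def MJ2 (β : FIC) : Prop :=
  ∀ ρ σ τ : FIC, β ≤ ρ → β ≤ σ → β ≤ τ → NC2 ρ → NC2 σ → NC2 τ → ∀ (k : ℕ) (B B' : ℕ → List ℕ),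
    OkB k B → OkB k B' → Two01 k B → Two01 k B' → RR (FIC.sup ρ σ) (asm k B) (asm k B') →
      RR τ (asm k B) (asm k B') → RR (psi ρ σ τ) (asm k B) (asm k B')

/-- the same for words with two multiple letters and the same shapes -/
def MJS (β : FIC) : Prop :=
  ∀ ρ σ τ : FIC, β ≤ ρ → β ≤ σ → β ≤ τ → NC2 ρ → NC2 σ → NC2 τ → ∀ (k : ℕ) (B B' : ℕ → List ℕ),
    OkB k B → OkB k B' → Two01 k B → Two01 k B' → Shp k B B' →
      RR (FIC.sup ρ σ) (asm k B) (asm k B') → RR τ (asm k B) (asm k B') →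
        RR (psi ρ σ τ) (asm k B) (asm k B')

/-- every congruence above `β` is determined by two letter words -/
def D2 (β : FIC) : Prop :=
  ∀ θ : FIC, β ≤ θ → NC2 θ → ∀ (k : ℕ) (B B' : ℕ → List ℕ), OkB k B → OkB k B' →
    (∀ x y, NS k x → NS k y → x ≠ y → RR θ (asm k (r2 x y B)) (asm k (r2 x y B'))) →
      RR θ (asm k B) (asm k B')

/-- the same for words with the same shapes -/
def SWP (β : FIC) : Prop :=
  ∀ θ : FIC, β ≤ θ → NC2 θ → ∀ (k : ℕ) (B B' : ℕ → List ℕ), OkB k B → OkB k B' → Shp k B B' →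
    (∀ x y, NS k x → NS k y → x ≠ y → RR θ (asm k (r2 x y B)) (asm k (r2 x y B'))) →
      RR θ (asm k B) (asm k B')

/-- the pair of words `e` is join prime over `β` -/
def JPp (β : FIC) (e : List ℕ × List ℕ) : Prop :=
  ∀ ρ σ : FIC, β ≤ ρ → β ≤ σ → NC2 ρ → NC2 σ → RR (FIC.sup ρ σ) e.1 e.2 →
    RR ρ e.1 e.2 ∨ RR σ e.1 e.2

/-- two letter words of the same shape are described by join prime edges -/
def EdgeP (β : FIC) : Prop :=
  ∀ (k : ℕ) (B B' : ℕ → List ℕ), OkB k B → OkB k B' → Two01 k B → Two01 k B' → Shp k B B' →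
    ∃ L : List (List ℕ × List ℕ), (∀ e ∈ L, JPp β e) ∧
      ∀ θ : FIC, β ≤ θ → NC2 θ → (RR θ (asm k B) (asm k B') ↔ ∀ e ∈ L, RR θ e.1 e.2)

/-- one step between words in blocks -/
def StM (ρ σ : FIC) (k : ℕ) (B B' : ℕ → List ℕ) : Prop :=
  OkB k B ∧ OkB k B' ∧ Sub k B B' ∧ (RR ρ (asm k B) (asm k B') ∨ RR σ (asm k B) (asm k B'))

end Pool.Agent.MWS
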